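import Pool.Agent.L0h75.H1.Stm2

/-!
# H1: the points of order eight
-/

set_option autoImplicit false
set_option linter.unusedSectionVars false

namespace Pool.Agent.L0h11.H1

open Pool.Agent.R384
open WeierstrassCurve Pool.Agent.Y676.IS
open scoped Classical
open Pool.Agent.Y715.Gi (QB KK GK)
open Pool.Agent.L0h75.H1

section
variable {F : Type} [Field F] [CharZero F] [IsAlgClosed F] [DecidableEq F] {w m : F}

/-- the point of order eight: `f ^ 2 x₃ = T` -/
lemma tow_three (h : WD w m) {x : ℕ → (Cu (ca w m) (cb w m)).Point}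
    (hx : Tow (eF h) (tA h) x) : eF h (eF h (x 3)) = tA h := by
  have h1 : eF h (eF h (eF h (x 3))) = 0 := hx.ker 3
  rcases ((td h).kf _).1 h1 with h2 | h2
  · exfalso
    obtain ⟨k, hk⟩ := hx.gen (td h) (n := 2) (P := x 3) h2
    have h6 : (2 ^ 2 : ℤ) • x 3 = 0 := by
      rw [hk, smul_comm, hx.pow', smul_zero]
    have h7 := Tow.dvd (td h) hx h6
    norm_num at h7
  · exact h2

/-- the abscissa of a point `P` with `f ^ 2 P = T` -/
theorem eight (h : WD w m) {P : (Cu (ca w m) (cb w m)).Point} (hP : eF h (eF h P) = tA h) {t : F}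
    (ht : t ^ 2 = -(1 - w)) : ∃ (x y : F) (hxy : (Cu (ca w m) (cb w m)).Nonsingular x y),
      P = .some x y hxy ∧ (x = w * m + w * m * (1 - w) * t ∨ x = w * m - w * m * (1 - w) * t) := by
  rcases P with _ | ⟨x, y, hxy⟩
  · exact absurd hP (by rintro ⟨⟩)
  have hx : x ≠ 0 := by
    intro hx
    rw [isT_of_x0 h.dat.hb h.dat.hd hxy hx] at hP
    have h1 : eF h (tA h) = 0 := (td h).fT
    rw [show (TT h.dat.hb h.dat.hd) = tA h from rfl, h1] at hP
    exact absurd hP (by rintro ⟨⟩)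
  refine ⟨x, y, hxy, rfl, ?_⟩
  obtain ⟨hn, he⟩ := eF_some h hxy hx
  rw [he] at hP
  obtain ⟨X, Y, hXY, e0, hX, hY, e1, e2⟩ := four h hP
  obtain ⟨e3, e4⟩ := (Affine.Point.some.injEq _ _ _ _ _ _).mp e0
  have hw := h.hw
  have hw0 := h.w0
  have hw1 := h.w1
  have hm := h.hm
  -- `X = w² m`
  have hX2 : X = w ^ 2 * m := by
    have hX1 : X = w ^ 2 * m ∨ X = -(w ^ 2 * m) := by
      apply sq_eq_sq_iff_eq_or_eq_neg.1
      rw [e1]; ring
    rcases hX1 with h1 | h1
    · exact h1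
    · exfalso
      have h2 := ns_eq hXY
      rw [e2] at h2
      have h3 : m * (1 - w) ^ 2 * X = X ^ 2 + ca w m * X + cb w m := by
        apply mul_left_cancel₀ hX
        linear_combination h2
      rw [h1] at h3
      unfold ca cb at h3
      -- `m² w² (…) = 0`
      have h4 : w ^ 4 * m ^ 2 = 0 := by
        have h5 : (4 : F) * (w ^ 4 * m ^ 2) = 0 := by
          linear_combination (-1 : F) * h3 + w ^ 2 * m ^ 2 * hw
        exact (mul_eq_zero.1 h5).resolve_left (by norm_num)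
      exact mul_ne_zero (pow_ne_zero 4 hw0) (pow_ne_zero 2 hm) h4
  have hy2 : y ^ 2 = (w ^ 2 * m + m) * ((1 - w) ^ 2 * x ^ 2) := by
    have h1 : y ^ 2 / ((1 - w) ^ 2 * x ^ 2) = w ^ 2 * m + m := by
      linear_combination e3 + hX2
    rwa [div_eq_iff (mul_ne_zero (pow_ne_zero _ hw1) (pow_ne_zero _ hx))] at h1
  have h3 : (w ^ 2 * m + m) * ((1 - w) ^ 2 * x) = x ^ 2 + ca w m * x + cb w m := by
    apply mul_left_cancel₀ hx
    have := ns_eq hxy
    linear_combination this - hy2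
  have h4 : (x - w * m) ^ 2 = (w * m * (1 - w) * t) ^ 2 := by
    unfold ca cb at h3
    linear_combination (-1 : F) * h3 + (x * m * (w ^ 2 - w - 1) + m ^ 2 * w ^ 2 * (1 - w)) * hw -
      w ^ 2 * m ^ 2 * (1 - w) ^ 2 * ht
  rcases sq_eq_sq_iff_eq_or_eq_neg.1 h4 with h5 | h5
  · left; linear_combination h5
  · right; linear_combination h5

end

/-- **K8.** -/
theorem t_K8 : S_K8 := by
  intro i₀ w m h fx x hx κ' hκ t ht σ
  obtain ⟨X, Y, hXY, hP, hX⟩ := eight h (tow_three h hx) ht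
  have hi0 : w ≠ 0 := h.w0
  have hi1 : 1 - w ≠ 0 := h.w1
  have hm : m ≠ 0 := h.hm
  have hσw : σ w = w := (fx σ).w
  have hσm : σ m = m := (fx σ).m
  -- `σ t = ± t`
  have hσt : σ t = t ∨ σ t = -t := by
    apply sq_eq_sq_iff_eq_or_eq_neg.1
    rw [← map_pow, ht, map_neg, map_sub, map_one, hσw]
  -- `σ` fixes the abscissa if and only if it fixes `t`
  have hc : w * m * (1 - w) ≠ 0 := mul_ne_zero (mul_ne_zero hi0 hm) hi1
  have hσX : σ X = X ↔ σ t = t := by
    have hlin : ∀ s : QB, (s = 1 ∨ s = -1) → X = w * m + s * (w * m * (1 - w) * t) →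
        (σ X = X ↔ σ t = t) := by
      intro s hs hXs
      have hσs : σ s = s := by rcases hs with rfl | rfl <;> simp
      have hs0 : s ≠ 0 := by rcases hs with rfl | rfl <;> simp
      have h1 : σ X - X = s * (w * m * (1 - w)) * (σ t - t) := by
        rw [hXs]
        simp only [map_add, map_mul, map_sub, map_one, hσw, hσm, hσs]
        ring
      rw [← sub_eq_zero, h1, mul_eq_zero, or_iff_right (mul_ne_zero hs0 hc), sub_eq_zero]
    rcases hX with h1 | h1
    · exact hlin 1 (Or.inl rfl) (by rw [h1]; ring)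
    · exact hlin (-1) (Or.inr rfl) (by rw [h1]; ring)
  obtain ⟨k, hk⟩ := exists_int (κ' σ : ℤ_[2]) 3
  have hact : gal h (rh σ) (fx σ) (x 3) = k • x 3 := hκ σ 3 k hk
  have hk' : (8 : ℤ_[2]) ∣ (κ' σ : ℤ_[2]) - k := by
    have e8 : (2 : ℤ_[2]) ^ 3 = 8 := by norm_num
    rwa [e8] at hk
  have hcast : ∀ j : ℤ, (j • x 3 = 0 → (8 : ℤ_[2]) ∣ (j : ℤ_[2])) := by
    intro j hj
    have h3 := dvd_cast.2 (Tow.dvd (td h) hx hj)
    have e8 : (2 : ℤ_[2]) ^ 3 = 8 := by norm_num
    rwa [e8] at h3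
  have hcast' : ∀ j : ℤ, (8 : ℤ_[2]) ∣ (j : ℤ_[2]) → j • x 3 = 0 := by
    intro j hj
    have e8 : (2 : ℤ_[2]) ^ 3 = 8 := by norm_num
    rw [← e8] at hj
    obtain ⟨l, rfl⟩ := dvd_cast.1 hj
    rw [mul_comm, mul_smul, hx.pow', smul_zero]
  rw [← hσX]
  constructor
  · intro hfix
    have hY : σ Y = Y ∨ σ Y = -Y := by
      apply sq_eq_sq_iff_eq_or_eq_neg.1
      have h1 := congrArg σ (ns_eq hXY)
      rw [map_pow] at h1
      rw [h1, ns_eq hXY]
      have ha : σ (ca w m) = ca w m := (fx σ).ca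
      have hb : σ (cb w m) = cb w m := (fx σ).cb
      simp only [map_add, map_mul, map_pow, hfix, ha, hb]
    rcases hY with hY | hY
    · left
      have h1 : gal h (rh σ) (fx σ) (x 3) = x 3 := by
        rw [hP, gal_some]
        exact some_congr _ _ hfix hY
      have h2 := hcast (k - 1) (by rw [sub_smul, one_smul, ← hact, h1, sub_self])
      have h3 := dvd_add hk' h2
      have e : (κ' σ : ℤ_[2]) - k + ((k - 1 : ℤ) : ℤ_[2]) = (κ' σ : ℤ_[2]) - 1 := by
        push_cast
        ring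
      rwa [e] at h3
    · right
      have h1 : gal h (rh σ) (fx σ) (x 3) = -x 3 := by
        rw [hP, gal_some, neg_some hXY (ns_neg h.dat.hb h.dat.hd hXY)]
        exact some_congr _ _ hfix hY
      have h2 := hcast (k + 1) (by rw [add_zsmul, one_zsmul, ← hact, h1, neg_add_cancel])
      have h3 := dvd_add hk' h2
      have e : (κ' σ : ℤ_[2]) - k + ((k + 1 : ℤ) : ℤ_[2]) = (κ' σ : ℤ_[2]) + 1 := by
        push_cast
        ring
      rwa [e] at h3
  · intro h8
    have hpm : gal h (rh σ) (fx σ) (x 3) = x 3 ∨ gal h (rh σ) (fx σ) (x 3) = -x 3 := by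
      rcases h8 with h8 | h8
      · left
        have h3 := dvd_sub h8 hk'
        have e : (κ' σ : ℤ_[2]) - 1 - ((κ' σ : ℤ_[2]) - k) = ((k - 1 : ℤ) : ℤ_[2]) := by
          push_cast
          ring
        rw [e] at h3
        have h4 := hcast' _ h3
        rw [sub_smul, one_smul, sub_eq_zero] at h4
        rw [hact, h4]
      · right
        have h3 := dvd_sub h8 hk'
        have e : (κ' σ : ℤ_[2]) + 1 - ((κ' σ : ℤ_[2]) - k) = ((k + 1 : ℤ) : ℤ_[2]) := by
          push_cast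
          ring
        rw [e] at h3
        have h4 := hcast' _ h3
        rw [add_zsmul, one_zsmul] at h4
        rw [hact]
        exact eq_neg_of_add_eq_zero_left h4
    rw [hP] at hpm
    rw [gal_some, neg_some hXY (ns_neg h.dat.hb h.dat.hd hXY)] at hpm
    rcases hpm with h1 | h1
    · exact ((Affine.Point.some.injEq _ _ _ _ _ _).mp h1).1
    · exact ((Affine.Point.some.injEq _ _ _ _ _ _).mp h1).1

end Pool.Agent.L0h11.H1
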